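import Mathlib

/-!
# MP_87e037_al: nonzero lowering maps on polynomials of bounded degree

For every field `K`, every `d ≥ 1` and every sequence of pairwise distinct `θ₀, …, θ_d`
satisfying the condition (*), there is a nonzero lowering map on the space of polynomials of
degree at most `d`.
-/

namespace Pool.Agent.Results.MP_87e037_al.NonzeroLowering

open Polynomial

variable {K : Type*} [Field K]

/-- `τ_i = ∏_{h < i} (λ - a_h)`. -/
noncomputable def tau (a : ℕ → K) (i : ℕ) : K[X] := ∏ h ∈ Finset.range i, (X - C (a h))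

/-- The space `V` of polynomials of degree at most `d`. -/
noncomputable abbrev V (K : Type*) [Field K] (d : ℕ) : Submodule K K[X] := degreeLE K d

/-- `Ψ` is a lowering map on `V` for `θ₀, …, θ_d`: with `τ_i = ∏_{h<i} (λ - θ_h)` and
`ρ_i = ∏_{h<i} (λ - θ_{d-h})` one has `Ψ τ₀ = 0 = Ψ ρ₀` and, for `1 ≤ i ≤ d`,
`Ψ τ_i ∈ span (τ_{i-1})`, `Ψ ρ_i ∈ span (ρ_{i-1})`. (Only `θ₀, …, θ_d` are used.) -/
def IsLowering (d : ℕ) (θ : ℕ → K) (Ψ : V K d →ₗ[K] V K d) : Prop :=
  (∀ v : V K d, (v : K[X]) = tau θ 0 → Ψ v = 0) ∧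
  (∀ v : V K d, (v : K[X]) = tau (fun h => θ (d - h)) 0 → Ψ v = 0) ∧
  ∀ i, 1 ≤ i → i ≤ d →
    (∀ v : V K d, (v : K[X]) = tau θ i →
      ((Ψ v : V K d) : K[X]) ∈ Submodule.span K {tau θ (i - 1)}) ∧
    (∀ v : V K d, (v : K[X]) = tau (fun h => θ (d - h)) i →
      ((Ψ v : V K d) : K[X]) ∈ Submodule.span K {tau (fun h => θ (d - h)) (i - 1)})

/-- Condition (*): `(θ_{i-2} - θ_{i+1}) (θ_{i-1} - θ_i)⁻¹` is the same for all
`2 ≤ i ≤ d - 1`. -/
def Star (d : ℕ) (θ : ℕ → K) : Prop :=
  ∀ i j, 2 ≤ i → i + 1 ≤ d → 2 ≤ j → j + 1 ≤ d →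
    (θ (i - 2) - θ (i + 1)) * (θ (i - 1) - θ i)⁻¹ =
      (θ (j - 2) - θ (j + 1)) * (θ (j - 1) - θ j)⁻¹

/-! ### The recursion -/

/-- The solution of `a_{n+2} = γ + β a_{n+1} - a_n`. -/
def rec3 (β γ x y : K) : ℕ → K
  | 0 => x
  | 1 => y
  | n + 2 => γ + β * rec3 β γ x y (n + 1) - rec3 β γ x y n

/-- The images of the powers of the variable. -/
noncomputable def gg (β γ ϱ p q t : K) : ℕ → K[X]
  | 0 => 0
  | 1 => C t
  | n + 2 => (C p * X + C q) * X ^ n - X ^ 2 * gg β γ ϱ p q t n +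
      C β * X * gg β γ ϱ p q t (n + 1) +
      C γ * (X * gg β γ ϱ p q t n + gg β γ ϱ p q t (n + 1)) + C ϱ * gg β γ ϱ p q t n

/-- The linear map with `X ^ n ↦ gg n`. -/
noncomputable def Psi (β γ ϱ p q t : K) : K[X] →ₗ[K] K[X] :=
  (Polynomial.basisMonomials K).constr K (gg β γ ϱ p q t)

section

variable (β γ ϱ p q t : K)

lemma Psi_X_pow (n : ℕ) : Psi β γ ϱ p q t (X ^ n) = gg β γ ϱ p q t n := by
  have h := (Polynomial.basisMonomials K).constr_basis K (gg β γ ϱ p q t) n
  rw [Polynomial.coe_basisMonomials] at h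
  simp only [Polynomial.monomial_one_right_eq_X_pow] at h
  exact h

lemma Psi_rel (f : K[X]) :
    Psi β γ ϱ p q t (X ^ 2 * f) = (C p * X + C q) * f - X ^ 2 * Psi β γ ϱ p q t f +
      C β * X * Psi β γ ϱ p q t (X * f) +
      C γ * (X * Psi β γ ϱ p q t f + Psi β γ ϱ p q t (X * f)) + C ϱ * Psi β γ ϱ p q t f := by
  induction f using Polynomial.induction_on' with
  | add f g hf hg =>
    simp only [mul_add, map_add] at hf hg ⊢
    rw [hf, hg]
    ring
  | monomial n a =>
    have h0 : ∀ m : ℕ, Psi β γ ϱ p q t (C a * X ^ m) = C a * gg β γ ϱ p q t m := by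
      intro m
      rw [← Polynomial.smul_eq_C_mul, map_smul, Psi_X_pow, Polynomial.smul_eq_C_mul]
    rw [← Polynomial.C_mul_X_pow_eq_monomial]
    have h1 : X ^ 2 * (C a * X ^ n) = C a * X ^ (n + 2) := by ring
    have h2 : X * (C a * X ^ n) = C a * X ^ (n + 1) := by ring
    rw [h1, h2, h0, h0, h0, gg]
    ring

variable (a : ℕ → K) (ϑ : ℕ → K)

lemma tau_succ (n : ℕ) : tau a (n + 1) = (X - C (a n)) * tau a n := by
  unfold tau
  rw [Finset.prod_range_succ, mul_comm]

/-- The key statement: `Ψ τ_n = ϑ_n τ_{n-1}`. -/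
lemma Psi_tau (ha : ∀ n, a (n + 2) = γ + β * a (n + 1) - a n)
    (hϱ : ϱ = a 0 ^ 2 - β * a 0 * a 1 + a 1 ^ 2 - γ * (a 0 + a 1))
    (h0 : ϑ 0 = 0) (h1 : ϑ 1 = t) (hϑ : ∀ n, ϑ (n + 2) = p + β * ϑ (n + 1) - ϑ n)
    (hq : q = t * ((1 - β) * a 0 + a 1 - γ) - p * a 0) :
    Psi β γ ϱ p q t (tau a 0) = 0 ∧
      ∀ n, Psi β γ ϱ p q t (tau a (n + 1)) = C (ϑ (n + 1)) * tau a n := by
  have hϱn : ∀ n, ϱ = a n ^ 2 - β * a n * a (n + 1) + a (n + 1) ^ 2 - γ * (a n + a (n + 1)) := by
    intro n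
    induction n with
    | zero => simpa using hϱ
    | succ n ih => rw [ih, ha n]; ring
  have hqn : ∀ n, q = ϑ n * (a n - a (n + 1)) + ϑ (n + 1) * ((1 - β) * a n + a (n + 1) - γ) -
      p * a n := by
    intro n
    induction n with
    | zero => rw [hq, h0]; simp only [zero_add]; rw [h1]; ring
    | succ n ih => rw [ih, hϑ n, ha n]; ring
  have hzero : Psi β γ ϱ p q t (tau a 0) = 0 := by
    have := Psi_X_pow β γ ϱ p q t 0
    rw [pow_zero] at this
    unfold tau
    rw [Finset.prod_range_zero, this, gg]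
  have hone : Psi β γ ϱ p q t (tau a 1) = C (ϑ 1) * tau a 0 := by
    have hX := Psi_X_pow β γ ϱ p q t 1
    rw [pow_one] at hX
    have hτ0 : tau a 0 = 1 := by simp [tau]
    have hτ : tau a 1 = X - a 0 • (1 : K[X]) := by
      rw [tau_succ, hτ0, Polynomial.smul_eq_C_mul]; ring
    rw [hτ0] at hzero
    rw [hτ, map_sub, map_smul, hzero, hX, hτ0, gg, h1]
    simp
  -- multiplication by `X`
  have hX : ∀ n, Psi β γ ϱ p q t (X * tau a n) =
      Psi β γ ϱ p q t (tau a (n + 1)) + C (a n) * Psi β γ ϱ p q t (tau a n) := by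
    intro n
    have : X * tau a n = tau a (n + 1) + a n • tau a n := by
      rw [tau_succ, Polynomial.smul_eq_C_mul]; ring
    rw [this, map_add, map_smul, Polynomial.smul_eq_C_mul]
  have hXX : ∀ n, Psi β γ ϱ p q t (tau a (n + 2)) = Psi β γ ϱ p q t (X ^ 2 * tau a n) -
      C (a n + a (n + 1)) * Psi β γ ϱ p q t (X * tau a n) +
      C (a n * a (n + 1)) * Psi β γ ϱ p q t (tau a n) := by
    intro n
    have : tau a (n + 2) = X ^ 2 * tau a n - (a n + a (n + 1)) • (X * tau a n) +
        (a n * a (n + 1)) • tau a n := by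
      rw [tau_succ, tau_succ, Polynomial.smul_eq_C_mul, Polynomial.smul_eq_C_mul]
      simp only [map_add, map_mul]
      ring
    rw [this, map_add, map_sub, map_smul, map_smul, Polynomial.smul_eq_C_mul,
      Polynomial.smul_eq_C_mul]
  refine ⟨hzero, fun n => ?_⟩
  suffices h : Psi β γ ϱ p q t (tau a (n + 1)) = C (ϑ (n + 1)) * tau a n ∧
      Psi β γ ϱ p q t (tau a (n + 2)) = C (ϑ (n + 2)) * tau a (n + 1) from h.1
  induction n with
  | zero =>
    refine ⟨hone, ?_⟩
    rw [hXX 0, Psi_rel, hX 0, hone, hzero, hqn 0, hϑ 0, h0, tau_succ]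
    simp only [map_add, map_mul, map_sub, map_zero, map_one]
    ring
  | succ n ih =>
    refine ⟨ih.2, ?_⟩
    rw [hXX (n + 1), Psi_rel, hX (n + 1), ih.1, ih.2, hqn (n + 1), hϑ (n + 1),
      tau_succ a (n + 1), tau_succ a n, hϱn n]
    simp only [map_add, map_mul, map_sub, map_one, map_pow, ha n]
    ring

lemma gg_degree (n : ℕ) : (gg β γ ϱ p q t n).natDegree ≤ n := by
  induction n using Nat.strong_induction_on with
  | _ n ih =>
    match n with
    | 0 => simp [gg]
    | 1 => simp [gg]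
    | n + 2 =>
      have h0 := ih n (by omega)
      have h1 := ih (n + 1) (by omega)
      rw [gg]
      have e1 : ((C p * X + C q) * X ^ n : K[X]).natDegree ≤ n + 2 := by
        refine natDegree_mul_le.trans ?_
        have := natDegree_linear_le (a := p) (b := q)
        have h2 : (X ^ n : K[X]).natDegree ≤ n := natDegree_X_pow_le n
        omega
      have e2 : (X ^ 2 * gg β γ ϱ p q t n : K[X]).natDegree ≤ n + 2 := by
        refine natDegree_mul_le.trans ?_
        have h2 : (X ^ 2 : K[X]).natDegree ≤ 2 := natDegree_X_pow_le 2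
        omega
      have e3 : (C β * X * gg β γ ϱ p q t (n + 1) : K[X]).natDegree ≤ n + 2 := by
        refine natDegree_mul_le.trans ?_
        have h2 : (C β * X : K[X]).natDegree ≤ 1 := (natDegree_C_mul_le β X).trans natDegree_X_le
        omega
      have e4 : (C γ * (X * gg β γ ϱ p q t n + gg β γ ϱ p q t (n + 1)) : K[X]).natDegree ≤
          n + 2 := by
        refine (natDegree_C_mul_le _ _).trans ((natDegree_add_le _ _).trans (max_le ?_ (by omega)))
        refine natDegree_mul_le.trans ?_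
        have h2 : (X : K[X]).natDegree ≤ 1 := natDegree_X_le
        omega
      have e5 : (C ϱ * gg β γ ϱ p q t n : K[X]).natDegree ≤ n + 2 :=
        (natDegree_C_mul_le _ _).trans (by omega)
      refine (natDegree_add_le _ _).trans (max_le ?_ e5)
      refine (natDegree_add_le _ _).trans (max_le ?_ e4)
      refine (natDegree_add_le _ _).trans (max_le ?_ e3)
      exact (natDegree_sub_le _ _).trans (max_le e1 e2)

lemma Psi_mem (d : ℕ) (f : K[X]) (hf : f ∈ degreeLE K d) :
    Psi β γ ϱ p q t f ∈ degreeLE K d := by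
  rw [mem_degreeLE] at hf ⊢
  rw [f.as_sum_range_C_mul_X_pow' (Nat.lt_succ_of_le (natDegree_le_iff_degree_le.2 hf)), map_sum]
  refine (degree_sum_le _ _).trans (Finset.sup_le fun i hi => ?_)
  rw [← Polynomial.smul_eq_C_mul, map_smul, Psi_X_pow]
  refine (degree_smul_le _ _).trans ?_
  rw [← natDegree_le_iff_degree_le]
  have := gg_degree β γ ϱ p q t i
  have hi' := Finset.mem_range.1 hi
  omega

end

/-- Main theorem: under (*) there is a nonzero lowering map. -/
theorem result (K : Type*) [Field K] (d : ℕ) (hd : 1 ≤ d) (θ : ℕ → K)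
    (hθ : ∀ i j, i < j → j ≤ d → θ i ≠ θ j) (hstar : Star d θ) :
    ∃ Ψ : V K d →ₗ[K] V K d, Ψ ≠ 0 ∧ IsLowering d θ Ψ := by
  -- the recurrence
  obtain ⟨β, γ, hβγ⟩ : ∃ β γ : K, ∀ i, i + 2 ≤ d → θ (i + 2) = γ + β * θ (i + 1) - θ i := by
    by_cases h3 : 3 ≤ d
    · set r := (θ 0 - θ 3) * (θ 1 - θ 2)⁻¹ with hr
      refine ⟨r - 1, θ 0 - (r - 1) * θ 1 + θ 2, fun i => ?_⟩
      induction i with
      | zero => intro _; ring
      | succ n ih =>
        intro hn
        have h1 := hstar (n + 2) 2 (by omega) (by omega) le_rfl (by omega)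
        have h2 : n + 2 - 2 = n := by omega
        have h4 : n + 2 - 1 = n + 1 := by omega
        rw [h2, h4, show 2 - 2 = 0 from rfl, show 2 - 1 = 1 from rfl, show 2 + 1 = 3 from rfl,
          ← hr] at h1
        have hne : θ (n + 1) - θ (n + 2) ≠ 0 :=
          sub_ne_zero.2 (hθ _ _ (by omega) (by omega))
        rw [← div_eq_mul_inv, div_eq_iff hne] at h1
        have h5 := ih (by omega)
        have h6 : θ (n + 1 + 2) = θ n - r * (θ (n + 1) - θ (n + 2)) := by
          rw [← h1]; ring_nf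
        rw [h6, show n + 1 + 1 = n + 2 from rfl]
        linear_combination h5
    · have h2 : d = 1 ∨ d = 2 := by omega
      rcases h2 with rfl | rfl
      · exact ⟨0, 0, fun i hi => by omega⟩
      · refine ⟨0, θ 0 + θ 2, fun i hi => ?_⟩
        have : i = 0 := by omega
        subst this
        simp
  set a := rec3 β γ (θ 0) (θ 1) with ha
  set b := rec3 β γ (θ d) (θ (d - 1)) with hb
  have haθ : ∀ n, n ≤ d → a n = θ n := by
    intro n
    induction n using Nat.strong_induction_on with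
    | _ n ih =>
      match n with
      | 0 => intro _; rfl
      | 1 => intro _; rfl
      | n + 2 =>
        intro hn
        rw [hβγ n hn, ← ih (n + 1) (by omega) (by omega), ← ih n (by omega) (by omega)]
        rfl
  have hbθ : ∀ n, n ≤ d → b n = θ (d - n) := by
    intro n
    induction n using Nat.strong_induction_on with
    | _ n ih =>
      match n with
      | 0 => intro _; rfl
      | 1 => intro _; rfl
      | n + 2 =>
        intro hn
        have h1 := hβγ (d - (n + 2)) (by omega)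
        have e1 : d - (n + 2) + 2 = d - n := by omega
        have e2 : d - (n + 2) + 1 = d - (n + 1) := by omega
        rw [e1, e2] at h1
        have h2 : b (n + 2) = γ + β * b (n + 1) - b n := rfl
        rw [h2, ih (n + 1) (by omega) (by omega), ih n (by omega) (by omega), h1]
        ring
  have harec : ∀ n, a (n + 2) = γ + β * a (n + 1) - a n := fun n => rfl
  have hbrec : ∀ n, b (n + 2) = γ + β * b (n + 1) - b n := fun n => rfl
  -- parameters
  set t := θ 0 - θ d with ht
  set p := t + (θ 1 - θ (d - 1)) - β * t with hp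
  set q := t * ((1 - β) * a 0 + a 1 - γ) - p * a 0 with hq
  set ϱ := a 0 ^ 2 - β * a 0 * a 1 + a 1 ^ 2 - γ * (a 0 + a 1) with hϱ
  set ϑ := rec3 β p 0 t with hϑ
  have hϑrec : ∀ n, ϑ (n + 2) = p + β * ϑ (n + 1) - ϑ n := fun n => rfl
  have hϱb : ϱ = b 0 ^ 2 - β * b 0 * b 1 + b 1 ^ 2 - γ * (b 0 + b 1) := by
    have hinv : ∀ n, ϱ = a n ^ 2 - β * a n * a (n + 1) + a (n + 1) ^ 2 -
        γ * (a n + a (n + 1)) := by
      intro n
      induction n with
      | zero => rw [hϱ]
      | succ n ih => rw [ih, harec n]; ring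
    have h1 := hinv (d - 1)
    have e1 : d - 1 + 1 = d := by omega
    rw [e1, haθ (d - 1) (by omega), haθ d le_rfl] at h1
    rw [h1, hbθ 0 (by omega), hbθ 1 hd, Nat.sub_zero]
    ring
  have hqb : q = t * ((1 - β) * b 0 + b 1 - γ) - p * b 0 := by
    have h0 : a 0 = θ 0 := rfl
    have h1 : a 1 = θ 1 := rfl
    have h2 : b 0 = θ d := rfl
    have h3 : b 1 = θ (d - 1) := rfl
    rw [hq, hp, h0, h1, h2, h3, ht]
    ring
  obtain ⟨ha0, haτ⟩ := Psi_tau β γ ϱ p q t a ϑ harec hϱ rfl rfl hϑrec hq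
  obtain ⟨hb0, hbτ⟩ := Psi_tau β γ ϱ p q t b ϑ hbrec hϱb rfl rfl hϑrec hqb
  have htau_a : ∀ i, i ≤ d → tau θ i = tau a i := by
    intro i hi
    unfold tau
    refine Finset.prod_congr rfl fun h hh => ?_
    rw [haθ h (by have := Finset.mem_range.1 hh; omega)]
  have htau_b : ∀ i, i ≤ d → tau (fun h => θ (d - h)) i = tau b i := by
    intro i hi
    unfold tau
    refine Finset.prod_congr rfl fun h hh => ?_
    rw [hbθ h (by have := Finset.mem_range.1 hh; omega)]
  set Ψ : V K d →ₗ[K] V K d :=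
    (Psi β γ ϱ p q t).restrict (fun f hf => Psi_mem β γ ϱ p q t d f hf) with hΨ
  have hΨv : ∀ v : V K d, ((Ψ v : V K d) : K[X]) = Psi β γ ϱ p q t (v : K[X]) := fun v => rfl
  refine ⟨Ψ, ?_, ?_, ?_, ?_⟩
  · intro h0
    have hmem : tau a 1 ∈ degreeLE K d := by
      rw [mem_degreeLE]
      have : tau a 1 = X - C (a 0) := by simp [tau]
      rw [this]
      refine (degree_X_sub_C_le _).trans ?_
      exact_mod_cast hd
    have h1 := hΨv ⟨tau a 1, hmem⟩
    rw [h0, haτ 0] at h1
    have h2 : C (ϑ (0 + 1)) * tau a 0 = C t := by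
      have : tau a 0 = 1 := by simp [tau]
      rw [this, mul_one]; rfl
    rw [h2] at h1
    have h3 : t = 0 := by
      have : (0 : K[X]) = C t := h1
      simpa using this.symm
    exact hθ 0 d hd le_rfl (sub_eq_zero.1 h3)
  · intro v hv
    apply Subtype.ext
    rw [hΨv, hv, htau_a 0 (by omega), ha0]
    rfl
  · intro v hv
    apply Subtype.ext
    rw [hΨv, hv, htau_b 0 (by omega), hb0]
    rfl
  · intro i hi hid
    obtain ⟨j, rfl⟩ : ∃ j, i = j + 1 := ⟨i - 1, by omega⟩
    constructor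
    · intro v hv
      rw [hΨv, hv, htau_a _ hid, haτ, Nat.add_sub_cancel, htau_a j (by omega),
        ← Polynomial.smul_eq_C_mul]
      exact Submodule.smul_mem _ _ (Submodule.mem_span_singleton_self _)
    · intro v hv
      rw [hΨv, hv, htau_b _ hid, hbτ, Nat.add_sub_cancel, htau_b j (by omega),
        ← Polynomial.smul_eq_C_mul]
      exact Submodule.smul_mem _ _ (Submodule.mem_span_singleton_self _)

end Pool.Agent.Results.MP_87e037_al.NonzeroLowering
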